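import Pool.Agent.X147.Quasi

set_option autoImplicit false

/-! # MP_c5a4a7_gt, Q1: no bound on the number of simple closed quasigeodesics through a vertex

The regular tetrahedron carries infinitely many simple closed quasigeodesics through its vertices:
the four vertices have total angle `π`, so that a curve may turn there arbitrarily. -/

open Set Filter Topology InnerProductGeometry

namespace Pool.Agent.Results.MP_c5a4a7_gt.InfinitelyMany

/-- Euclidean 3-space -/
abbrev E3 := EuclideanSpace ℝ (Fin 3)

/-- The face of the tetrahedron `V` opposite to the vertex `V j`. -/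
def face (V : Fin 4 → E3) (j : Fin 4) : Set E3 := convexHull ℝ (V '' {i | i ≠ j})

/-- The total surface angle at the vertex `V a`: the sum of the angles at `V a` of the three faces
containing `V a`. -/
noncomputable def totalAngle (V : Fin 4 → E3) (a : Fin 4) : ℝ :=
  angle (V (a + 1) - V a) (V (a + 2) - V a) + angle (V (a + 2) - V a) (V (a + 3) - V a) +
    angle (V (a + 3) - V a) (V (a + 1) - V a)

/-- `Θ` is the total surface angle at the point `p` of the surface: `2π` unless `p` is a vertex. -/
def IsConeAngle (V : Fin 4 → E3) (p : E3) (Θ : ℝ) : Prop :=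
  (∃ a, p = V a ∧ Θ = totalAngle V a) ∨ ((∀ a, p ≠ V a) ∧ Θ = 2 * Real.pi)

/-- The direction `u` at `p` points into the face opposite to `V g`. -/
def PointsInto (V : Fin 4 → E3) (g : Fin 4) (p u : E3) : Prop :=
  ∀ᶠ s in 𝓝[>] (0 : ℝ), p + s • u ∈ face V g

/-- `α` is the surface angle, on one side, between the two directions `u` and `w` at the point `p`
of the surface: the angle in the face if both directions point into the same face; the sum of the
angles with the common edge if they point into two different faces (for `p` in the interior of the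
edge, each of its two end points `V b` gives the angle on one side). -/
def IsSideAngle (V : Fin 4 → E3) (p u w : E3) (α : ℝ) : Prop :=
  ∃ g g' : Fin 4, PointsInto V g p u ∧ PointsInto V g' p w ∧
    ((g = g' ∧ α = angle u w) ∨
      (g ≠ g' ∧ ∃ b : Fin 4, b ≠ g ∧ b ≠ g' ∧ p ≠ V b ∧ α = angle u (V b - p) + angle (V b - p) w))

/-- Both surface angles between the directions `u` and `w` at `p` are at most `π`. -/
def Admissible (V : Fin 4 → E3) (p u w : E3) : Prop :=
  ∃ α Θ : ℝ, IsSideAngle V p u w α ∧ IsConeAngle V p Θ ∧ α ≤ Real.pi ∧ Θ - α ≤ Real.pi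

/-- `γ` is (a periodic parametrisation of) a simple closed quasigeodesic on the surface of the
tetrahedron `V`: the curve is piecewise linear, and at each of its points the surface angles on
the two sides are at most `π`. -/
structure IsSimpleClosedQuasigeodesic (V : Fin 4 → E3) (L : ℝ) (γ : ℝ → E3) : Prop where
  pos : 0 < L
  periodic : ∀ t, γ (t + L) = γ t
  simple : InjOn γ (Ico 0 L)
  mem_surface : ∀ t, ∃ j, γ t ∈ face V j
  angles : ∀ t, ∃ u w : E3, u ≠ 0 ∧ w ≠ 0 ∧ (∀ᶠ s in 𝓝[>] (0 : ℝ), γ (t - s) = γ t + s • u) ∧
    (∀ᶠ s in 𝓝[>] (0 : ℝ), γ (t + s) = γ t + s • w) ∧ Admissible V (γ t) u w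

/-- There is a tetrahedron (the regular one) with infinitely many simple closed quasigeodesics
(distinct as point sets) which pass through a vertex. -/
theorem result : ∃ V : Fin 4 → E3, AffineIndependent ℝ V ∧
    {S : Set E3 | ∃ (L : ℝ) (γ : ℝ → E3), IsSimpleClosedQuasigeodesic V L γ ∧ S = range γ ∧
      ∃ a, V a ∈ S}.Infinite := by
  obtain ⟨V, hV, h⟩ := X147.Quasi.main
  refine ⟨V, hV, h.mono ?_⟩
  rintro S ⟨L, γ, hγ, hS, ha⟩
  exact ⟨L, γ, ⟨hγ.pos, hγ.periodic, hγ.simple, hγ.mem_surface, hγ.angles⟩, hS, ha⟩

end Pool.Agent.Results.MP_c5a4a7_gt.InfinitelyMany
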